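import Pool.Agent.H40.HaarMain

set_option autoImplicit false

open MeasureTheory Pool.Agent.H40.Haar

namespace Pool.Agent.Results.MP_02a511_an.HaarShiftBound

/-- There is a constant `0 < η < 1` such that the Haar shift `T` (the unique bounded operator on
`L^2(ℝ)` with `T h_{I₊} = h_{I₋}` and `T h_{I₋} = - h_{I₊}` for all dyadic `I`) satisfies
`∫_V (T 1_V)^2 ≤ η |V|` for every Lebesgue measurable `V` with `0 < |V| < ∞`. -/
theorem result :
    ∃ η : ℝ, 0 < η ∧ η < 1 ∧
      ∃ T : L2R → L2R, IsHaarShift T ∧ (∀ T' : L2R → L2R, IsHaarShift T' → T' = T) ∧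
        ∀ V : Set ℝ, NullMeasurableSet V volume → 0 < volume V → volume V < ⊤ →
          ∀ F : L2R, (F : ℝ → ℝ) =ᵐ[volume] V.indicator (fun _ => (1 : ℝ)) →
            ∫ x in V, ((T F : L2R) x) ^ 2 ≤ η * volume.real V := by
  refine ⟨1 - 1 / 2 ^ 22, by norm_num, by norm_num, fun g : L2R => shiftOp g, isHaarShift_coe,
    fun T' hT' => hT'.eq_shiftOp, ?_⟩
  intro V hV _ hfin F hF
  obtain ⟨W, hWV, hWm, hWae⟩ := hV.exists_measurable_subset_ae_eq
  have h1 : V.indicator (fun _ => (1 : ℝ)) =ᵐ[volume] W.indicator (fun _ => (1 : ℝ)) :=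
    indicator_ae_eq_of_ae_eq_set hWae.symm
  have h2 : volume W = volume V := measure_congr hWae
  have h3 : volume.real W = volume.real V := by
    rw [measureReal_def, measureReal_def, h2]
  have h4 := shift_bound hWm (h2 ▸ hfin.ne) F (hF.trans h1)
  rw [h3] at h4
  rwa [setIntegral_congr_set hWae.symm]

end Pool.Agent.Results.MP_02a511_an.HaarShiftBound
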